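import Pool.Agent.Helper75.Slab.FlowGoals

/-!
# Global existence of the flow of a Lipschitz field on a compact time interval
-/

set_option autoImplicit false

namespace Pool.Agent.Helper78.Slab

open Set Pool.Agent.Helper75.Flow

theorem local_step {t K : ℝ} {u : ℝ → E → E} (hu : LipField t K u) {c c' : ℝ}
    (hac : 0 ≤ c) (hcc : c ≤ c') (hcb : c' ≤ t) (hδ : (2 * K + 1) * (c' - c) ≤ 1) (y₀ : E) :
    ∃ y : ℝ → E, y c = y₀ ∧ ∀ s ∈ Icc c c', HasDerivWithinAt y (u s (y s)) (Icc c c') s := by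
  obtain ⟨hK0, hcont, hlip⟩ := hu
  have hsub : Icc c c' ⊆ Icc 0 t := Icc_subset_Icc hac hcb
  have hcy : ∀ x : E, ContinuousOn (fun s => u s x) (Icc 0 t) := by
    intro x
    have h := hcont.comp (f := fun s : ℝ => (s, x)) (s := Icc 0 t)
      (by fun_prop) (fun s hs => ⟨hs, mem_univ _⟩)
    exact h
  obtain ⟨C, hC⟩ := isCompact_Icc.exists_bound_of_continuousOn (hcy y₀)
  have hC0 : 0 ≤ C := (norm_nonneg _).trans (hC c ⟨hac, hcc.trans hcb⟩)
  have hPL : IsPicardLindelof u (tmin := c) (tmax := c') ⟨c, le_rfl, hcc⟩ y₀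
      ⟨2 * C + 1, by positivity⟩ 0 ⟨C + K * (2 * C + 1), by positivity⟩ ⟨K, hK0⟩ := by
    refine ⟨?_, ?_, ?_, ?_⟩
    · intro s hs
      refine (LipschitzWith.of_dist_le_mul ?_).lipschitzOnWith
      intro x y
      rw [dist_eq_norm, dist_eq_norm]
      exact hlip s (hsub hs) x y
    · intro x _
      exact (hcy x).mono hsub
    · intro s hs x hx
      have h3 : dist x y₀ ≤ 2 * C + 1 := hx
      rw [dist_eq_norm] at h3
      have h4 : ‖u s x‖ ≤ ‖u s x - u s y₀‖ + ‖u s y₀‖ := by
        have := norm_add_le (u s x - u s y₀) (u s y₀)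
        simpa using this
      have h5 := hlip s (hsub hs) x y₀
      have h6 := hC s (hsub hs)
      have h7 : K * ‖x - y₀‖ ≤ K * (2 * C + 1) := mul_le_mul_of_nonneg_left h3 hK0
      show ‖u s x‖ ≤ C + K * (2 * C + 1)
      linarith
    · show (C + K * (2 * C + 1)) * max (c' - c) (c - c) ≤ (2 * C + 1) - 0
      rw [sub_self, max_eq_left (by linarith), sub_zero]
      have h5 : 0 ≤ c' - c := by linarith
      have h8 : 0 ≤ K * (c' - c) := by positivity
      have h6 : K * (c' - c) ≤ 1 / 2 := by nlinarith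
      have h9 : c' - c ≤ 1 := by nlinarith
      nlinarith [mul_le_mul_of_nonneg_right h6 hC0, mul_le_mul_of_nonneg_right h9 hC0]
  obtain ⟨y, hy, hy'⟩ := hPL.exists_eq_forall_mem_Icc_hasDerivWithinAt₀
  exact ⟨y, hy, hy'⟩

theorem glue {u : ℝ → E → E} {a c c' : ℝ} {x y : ℝ → E} (hac : a ≤ c) (hcc : c ≤ c')
    (hx : ∀ t ∈ Icc a c, HasDerivWithinAt x (u t (x t)) (Icc a c) t)
    (hy : ∀ t ∈ Icc c c', HasDerivWithinAt y (u t (y t)) (Icc c c') t) (hxy : y c = x c) :
    ∀ t ∈ Icc a c', HasDerivWithinAt (fun t => if t ≤ c then x t else y t)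
      (u t ((fun t => if t ≤ c then x t else y t) t)) (Icc a c') t := by
  set z : ℝ → E := fun t => if t ≤ c then x t else y t with hz
  have hzx : ∀ t ≤ c, z t = x t := fun t ht => if_pos ht
  have hzy : ∀ t, c ≤ t → z t = y t := by
    intro t ht
    rcases ht.eq_or_lt with h | h
    · rw [← h, hzx c le_rfl, hxy]
    · exact if_neg (not_le.2 h)
  have h1 : ∀ t ∈ Icc a c, HasDerivWithinAt z (u t (z t)) (Icc a c) t := by
    intro t ht
    rw [hzx t ht.2]
    exact (hx t ht).congr (fun s hs => hzx s hs.2) (hzx t ht.2)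
  have h2 : ∀ t ∈ Icc c c', HasDerivWithinAt z (u t (z t)) (Icc c c') t := by
    intro t ht
    rw [hzy t ht.1]
    exact (hy t ht).congr (fun s hs => hzy s hs.1) (hzy t ht.1)
  intro t ht
  rcases lt_trichotomy t c with h | h | h
  · refine (h1 t ⟨ht.1, h.le⟩).mono_of_mem_nhdsWithin ?_
    rw [mem_nhdsWithin_iff_exists_mem_nhds_inter]
    exact ⟨Iic c, Iic_mem_nhds h, fun s hs => ⟨hs.2.1, hs.1⟩⟩
  · subst h
    rw [← Icc_union_Icc_eq_Icc hac hcc]
    exact (h1 t ⟨ht.1, le_rfl⟩).union (h2 t ⟨le_rfl, ht.2⟩)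
  · refine (h2 t ⟨h.le, ht.2⟩).mono_of_mem_nhdsWithin ?_
    rw [mem_nhdsWithin_iff_exists_mem_nhds_inter]
    exact ⟨Ici c, Ici_mem_nhds h, fun s hs => ⟨hs.1, hs.2.2⟩⟩

theorem global {t K : ℝ} {u : ℝ → E → E} (ht0 : 0 ≤ t) (hu : LipField t K u) (x₀ : E) :
    ∃ y : ℝ → E, y 0 = x₀ ∧ ∀ s ∈ Icc 0 t, HasDerivWithinAt y (u s (y s)) (Icc 0 t) s := by
  have hK0 : 0 ≤ K := hu.1
  have hpos : 0 < 2 * K + 1 := by linarith
  have key : ∀ n : ℕ, ∃ x : ℝ → E, x 0 = x₀ ∧ ∀ s ∈ Icc 0 (min t (n * (1 / (2 * K + 1)))),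
      HasDerivWithinAt x (u s (x s)) (Icc 0 (min t (n * (1 / (2 * K + 1))))) s := by
    intro n
    induction n with
    | zero =>
      refine ⟨fun _ => x₀, rfl, ?_⟩
      have h0 : min t (((0 : ℕ) : ℝ) * (1 / (2 * K + 1))) = 0 := by
        simp [ht0]
      rw [h0, Icc_self]
      intro s hs
      rw [mem_singleton_iff] at hs
      subst hs
      exact HasFDerivWithinAt.of_subsingleton subsingleton_singleton
    | succ n ih =>
      obtain ⟨x, hxa, hx⟩ := ih
      set c := min t (n * (1 / (2 * K + 1))) with hc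
      set c' := min t (((n + 1 : ℕ) : ℝ) * (1 / (2 * K + 1))) with hc'
      have hstep : (0 : ℝ) < 1 / (2 * K + 1) := by positivity
      have hac : 0 ≤ c := le_min ht0 (by positivity)
      have hcc : c ≤ c' := by
        refine min_le_min le_rfl ?_
        push_cast
        nlinarith
      have hcb : c' ≤ t := min_le_left _ _
      have hδ : (2 * K + 1) * (c' - c) ≤ 1 := by
        have h1 : c' - c ≤ 1 / (2 * K + 1) := by
          have h2 : c' ≤ ((n + 1 : ℕ) : ℝ) * (1 / (2 * K + 1)) := min_le_right _ _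
          rcases le_total t (n * (1 / (2 * K + 1))) with h | h
          · have : c = t := min_eq_left h
            rw [this]
            linarith
          · have : c = n * (1 / (2 * K + 1)) := min_eq_right h
            rw [this]
            push_cast at h2
            linarith
        calc (2 * K + 1) * (c' - c) ≤ (2 * K + 1) * (1 / (2 * K + 1)) :=
              mul_le_mul_of_nonneg_left h1 hpos.le
          _ = 1 := by field_simp
      obtain ⟨y, hyc, hy⟩ := local_step hu hac hcc hcb hδ (x c)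
      refine ⟨fun t => if t ≤ c then x t else y t, ?_, glue hac hcc hx hy hyc⟩
      simp only [hac, if_true]
      exact hxa
  obtain ⟨n, hn⟩ := exists_nat_gt (t * (2 * K + 1))
  obtain ⟨x, hxa, hx⟩ := key n
  have hb : min t (n * (1 / (2 * K + 1))) = t := by
    refine min_eq_left ?_
    have h1 : t < n * (1 / (2 * K + 1)) := by
      rw [mul_one_div, lt_div_iff₀ hpos]
      exact hn
    exact h1.le
  rw [hb] at hx
  exact ⟨x, hxa, hx⟩

theorem thm : G_FL1 := by
  intro t K u ht0 hu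
  choose y hy0 hy using fun X : E => global ht0 hu X
  exact ⟨fun s X => y X s, hy0, hy⟩

end Pool.Agent.Helper78.Slab
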